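import Pool.Agent.E8helper28.IX.Ix3

/-!
# Decompositions `n = k + m` with `p_k + h` and `p_{p_m} + h'` prime for almost all pairs `(h, h')`: the number
of `k` in arbitrary sets (helper28)
-/

set_option autoImplicit false

namespace Pool.Agent.Results.MP_04e9b2_nt.AllShiftPairsH28

open Finset

/-- the `k`-th prime, `p 1 = 2` -/
noncomputable def p (k : ℕ) : ℕ := Nat.nth Nat.Prime (k - 1)

/-- `∏_{q ≤ z} (1 - 1 / q)` over primes `q`, the density of the integers without prime factors `≤ z`. -/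
noncomputable def V (z : ℕ) : ℝ := ∏ q ∈ (Icc 1 z).filter Nat.Prime, (1 - 1 / (q : ℝ))

open Classical in
/-- The number of the `0 < k < n` in `M` such that `p_k + h` and `p_{p_m} + h'`, `m = n - k`, are both prime. -/
noncomputable def primeCount (n : ℕ) (M : Set ℕ) (h h' : ℕ) : ℕ :=
  ((Ioo 0 n).filter (fun k : ℕ => k ∈ M ∧ (p k + h).Prime ∧ (p (p (n - k)) + h').Prime)).card

open Classical in
/-- The number of the `0 < k < n` in `M` such that `p_k + h` and `p_{p_m} + h'`, `m = n - k`, are not divisible by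
a prime `q ≤ z`. -/
noncomputable def roughCount (n z : ℕ) (M : Set ℕ) (h h' : ℕ) : ℕ :=
  ((Ioo 0 n).filter (fun k : ℕ => k ∈ M ∧
    ∀ q : ℕ, q.Prime → q ≤ z → ¬ q ∣ p k + h ∧ ¬ q ∣ p (p (n - k)) + h')).card

/-- For every one of the sets `M l` which contains at least `n / log ^ K n` numbers `0 < k < n` such that
`p_k + h` and `p_{p_m} + h'`, `m = n - k`, have no prime factor `≤ z`, the proportion of these `k` for which both
numbers are prime is `1 / (V z log n) ^ 2`, up to a relative error of at most `ε`. -/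
def Relative (ε : ℝ) (K n z : ℕ) {r : ℕ} (M : Fin r → Set ℕ) (h h' : ℕ) : Prop :=
  ∀ l : Fin r, (n : ℝ) / Real.log n ^ K ≤ roughCount n z (M l) h h' →
    |(primeCount n (M l) h h' : ℝ) - roughCount n z (M l) h h' / (V z * Real.log n) ^ 2| ≤
      ε * (roughCount n z (M l) h h' / (V z * Real.log n) ^ 2)

open Pool.Agent.H373R2.T7 (pz mem_pz Vz)
open Pool.Agent.E8helper28.IX

/-- the two index maps -/
noncomputable def fm (n : ℕ) : Fin 2 → ℕ → ℕ := ![p, fun k => p (p (n - k))]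

lemma fam : ∃ N0 : ℕ, ∀ n : ℕ, N0 ≤ n → Fam 5 n (n - 1) (fm n) := by
  obtain ⟨n1, h1⟩ := nth_le_log
  obtain ⟨n2, h2⟩ := nth_nth_le_log
  obtain ⟨n3, h3⟩ := Pool.Agent.H373R2.T7.ev_L' 1
  refine ⟨n1 + n2 + n3, fun n hn i => ?_⟩
  have b3 := h3 n (by omega)
  fin_cases i
  · constructor
    · intro a ha b hb hab
      rw [mem_Icc] at ha hb
      have hab' : p a = p b := hab
      unfold p at hab'
      have := nth_inj hab'
      omega
    · intro m hm
      rw [mem_Icc] at hm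
      have h5 : ((p m : ℕ) : ℝ) ≤ n * Real.log n ^ 2 := h1 n (by omega) (m - 1) (by omega)
      refine h5.trans ?_
      apply mul_le_mul_of_nonneg_left _ (Nat.cast_nonneg _)
      exact pow_le_pow_right₀ b3 (by norm_num)
  · constructor
    · intro a ha b hb hab
      rw [mem_Icc] at ha hb
      have hab' : p (p (n - a)) = p (p (n - b)) := hab
      have h5 : p (n - a) - 1 = p (n - b) - 1 := nth_inj hab'
      have h6 : 2 ≤ p (n - a) := (Nat.prime_nth_prime _).two_le
      have h7 : 2 ≤ p (n - b) := (Nat.prime_nth_prime _).two_le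
      have h8 : p (n - a) = p (n - b) := by omega
      have := nth_inj h8
      omega
    · intro m hm
      rw [mem_Icc] at hm
      exact h2 n (by omega) (n - m - 1) (by omega)

open Classical in
lemma prime_eq (n : ℕ) (M : Set ℕ) (h h' : ℕ) :
    primeCount n M h h' = cq (fm n) ![h, h'] ((Icc 1 (n - 1)).filter (· ∈ M)) := by
  unfold primeCount cq qP
  congr 1
  ext k
  simp only [mem_filter, mem_Ioo, mem_Icc]
  constructor
  · rintro ⟨⟨h1, h2⟩, h3, h4, h5⟩
    refine ⟨⟨⟨by omega, by omega⟩, h3⟩, fun i => ?_⟩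
    fin_cases i
    · exact h4
    · exact h5
  · rintro ⟨⟨⟨h1, h2⟩, h3⟩, h4⟩
    exact ⟨⟨by omega, by omega⟩, h3, h4 0, h4 1⟩

open Classical in
lemma rough_eq (n z : ℕ) (M : Set ℕ) (h h' : ℕ) :
    roughCount n z M h h' = rq (fm n) z ![h, h'] ((Icc 1 (n - 1)).filter (· ∈ M)) := by
  unfold roughCount rq qR
  congr 1
  ext k
  simp only [mem_filter, mem_Ioo, mem_Icc]
  constructor
  · rintro ⟨⟨h1, h2⟩, h3, h4⟩
    refine ⟨⟨⟨by omega, by omega⟩, h3⟩, fun i q hq => ?_⟩
    have h5 := h4 q (mem_pz.1 hq).2 (mem_pz.1 hq).1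
    fin_cases i
    · exact h5.1
    · exact h5.2
  · rintro ⟨⟨⟨h1, h2⟩, h3⟩, h4⟩
    exact ⟨⟨by omega, by omega⟩, h3, fun q hq1 hq2 => ⟨h4 0 q (mem_pz.2 ⟨hq2, hq1⟩), h4 1 q (mem_pz.2 ⟨hq2, hq1⟩)⟩⟩

lemma V_eq (z : ℕ) : V z = Vz z := rfl

open Classical in
/-- **The number of decompositions for almost all pairs of shifts.** Let `E` be large in terms of `T, U, K, ε` and
let `n` be large in terms of all of them. Let `M 1, ..., M r`, `r ≤ log ^ T n`, be arbitrary sets of integers.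
Then all but at most `n ^ 2 / log ^ U n` of the pairs `(h, h')` with `1 ≤ h, h' ≤ n` satisfy the statement
`Relative` for the sets `M l` with `z = ⌊log ^ E n⌋`. -/
theorem result (T U K : ℕ) (ε : ℝ) (hε : 0 < ε) :
    ∃ E₀ : ℕ, ∀ E : ℕ, E₀ ≤ E → ∃ n₀ : ℕ, ∀ n : ℕ, n₀ ≤ n →
    ∀ r : ℕ, (r : ℝ) ≤ Real.log n ^ T → ∀ M : Fin r → Set ℕ,
      (((Icc 1 n ×ˢ Icc 1 n).filter (fun h => ¬ Relative ε K n ⌊Real.log n ^ E⌋₊ M h.1 h.2)).card : ℝ) ≤
        (n : ℝ) ^ 2 / Real.log n ^ U := by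
  obtain ⟨E0, h0⟩ := arb_ix 2 5 T U K ε hε
  refine ⟨E0, fun E hE => ?_⟩
  obtain ⟨n0, h1⟩ := h0 E hE
  obtain ⟨n1, h2⟩ := fam
  refine ⟨n0 + n1 + 2, fun n hn r hr M => ?_⟩
  have key := h1 n (by omega) (n - 1) (by omega) (by omega) (fm n) (h2 n (by omega)) (Fin r) (by rw [Fintype.card_fin]; exact hr)
    (fun l : Fin r => (Icc 1 (n - 1)).filter (· ∈ M l)) (fun l => filter_subset _ _)
  refine le_trans ?_ key
  rw [Nat.cast_le]
  apply card_le_card_of_injOn (fun h : ℕ × ℕ => (![h.1, h.2] : Fin 2 → ℕ))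
  · intro h hh
    rw [mem_coe, mem_filter, mem_product] at hh
    rw [mem_coe, mem_filter]
    refine ⟨?_, fun hcon => hh.2 ?_⟩
    · unfold vec
      rw [Fintype.mem_piFinset]
      intro i
      fin_cases i
      · exact hh.1.1
      · exact hh.1.2
    · intro l hR
      have h5 := hcon l
      rw [rough_eq] at hR ⊢
      rw [prime_eq, V_eq]
      exact h5 hR
  · intro a _ b _ hab
    have h5 := congrFun hab 0
    have h6 := congrFun hab 1
    exact Prod.ext h5 h6

end Pool.Agent.Results.MP_04e9b2_nt.AllShiftPairsH28
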